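import Pool.Agent.Helper23.NS.Defs

/-! MODULE B for MP_56bc24_co: words with letters at most 3. -/

set_option autoImplicit false

namespace Helper23.NS

open List

/-! ### basic facts -/

theorem IsT.isKunz {w : List ℕ} (h : IsT w) : IsKunz w := by
  refine ⟨fun x hx => (h.let13 x hx).1, h.k1, ?_⟩
  intro i j hi hj hij
  have hlt : i + j - w.length < w.length := by omega
  have h1 : w.getD (i + j - w.length) 0 ≤ 3 := by
    rw [List.getD_eq_getElem _ _ hlt]
    exact (h.let13 _ (List.getElem_mem hlt)).2
  have h2 : 1 ≤ w.getD i 0 := by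
    rw [List.getD_eq_getElem _ _ hi]
    exact (h.let13 _ (List.getElem_mem hi)).1
  have h3 : 1 ≤ w.getD j 0 := by
    rw [List.getD_eq_getElem _ _ hj]
    exact (h.let13 _ (List.getElem_mem hj)).1
  omega

theorem length_le_sum_of_pos {w : List ℕ} (h : ∀ x ∈ w, 1 ≤ x) : w.length ≤ w.sum := by
  induction w with
  | nil => simp
  | cons a w ih =>
    have h1 := h a (by simp)
    have h2 := ih (fun x hx => h x (by simp [hx]))
    simp only [List.length_cons, List.sum_cons]
    omega

theorem posword_finite (g : ℕ) : {w : List ℕ | (∀ x ∈ w, 1 ≤ x) ∧ w.sum = g}.Finite := by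
  have h1 : {l : List (Fin (g + 1)) | l.length ≤ g}.Finite := List.finite_length_le _ _
  refine (h1.image (fun l : List (Fin (g + 1)) =>
    List.map (fun x : Fin (g + 1) => (x : ℕ)) l)).subset ?_
  rintro w ⟨h2, h3⟩
  have h4 : ∀ x ∈ w, x < g + 1 := by
    intro x hx
    have := List.single_le_sum (l := w) (by simp) x hx
    omega
  refine ⟨w.attach.map (fun x => ⟨x.1, h4 x.1 x.2⟩), ?_, ?_⟩
  · have h5 := length_le_sum_of_pos h2
    show (w.attach.map (fun x => (⟨x.1, h4 x.1 x.2⟩ : Fin (g + 1)))).length ≤ g
    rw [List.length_map, List.length_attach]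
    omega
  · show List.map (fun x : Fin (g + 1) => (x : ℕ))
      (w.attach.map (fun x => (⟨x.1, h4 x.1 x.2⟩ : Fin (g + 1)))) = w
    rw [List.map_map]
    exact List.attach_map_subtype_val w

theorem kword_finite' (g : ℕ) : (kword g).Finite :=
  (posword_finite g).subset (fun _ h => ⟨h.1.pos, h.2⟩)

theorem tword_finite (g : ℕ) : (tword g).Finite :=
  (posword_finite g).subset (fun _ h => ⟨fun x hx => (h.1.let13 x hx).1, h.2⟩)

theorem rword_finite (g : ℕ) : (rword g).Finite :=
  (posword_finite g).subset (fun _ h => ⟨h.1.pos, h.2.1⟩)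

theorem kword_eq (g : ℕ) : kword g = tword g ∪ rword g := by
  ext w
  constructor
  · rintro ⟨h1, h2⟩
    by_cases h : ∃ x ∈ w, 4 ≤ x
    · exact Or.inr ⟨h1, h2, h⟩
    · push Not at h
      left
      refine ⟨⟨fun x hx => ⟨h1.pos x hx, ?_⟩, h1.k1⟩, h2⟩
      have := h x hx
      omega
  · rintro (⟨h1, h2⟩ | ⟨h1, h2, _⟩)
    · exact ⟨h1.isKunz, h2⟩
    · exact ⟨h1, h2⟩

theorem tword_disjoint_rword (g : ℕ) : Disjoint (tword g) (rword g) := by
  rw [Set.disjoint_left]
  rintro w ⟨h1, _⟩ ⟨_, _, x, hx, h4⟩
  have := (h1.let13 x hx).2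
  omega

theorem kword_ncard (g : ℕ) : (kword g).ncard = (tword g).ncard + (rword g).ncard := by
  rw [kword_eq, Set.ncard_union_eq (tword_disjoint_rword g) (tword_finite g) (rword_finite g)]

/-! ### appending a letter -/

theorem getD_append_single (w : List ℕ) (x i : ℕ) :
    (w ++ [x]).getD i 0 = if i < w.length then w.getD i 0 else if i = w.length then x else 0 := by
  split_ifs with h1 h2
  · rw [List.getD_append _ _ _ _ h1]
  · subst h2
    rw [List.getD_append_right _ _ _ _ le_rfl]
    simp
  · rw [List.getD_eq_default]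
    simp only [List.length_append, List.length_singleton]
    omega

theorem IsT.getD_pos {w : List ℕ} (h : IsT w) {i : ℕ} (hi : i < w.length) : 1 ≤ w.getD i 0 := by
  rw [List.getD_eq_getElem _ _ hi]
  exact (h.let13 _ (List.getElem_mem hi)).1

theorem IsT.append {w : List ℕ} (h : IsT w) {x : ℕ} (hx : 1 ≤ x) (hx3 : x ≤ 3)
    (hok : ∀ i j, i + j + 1 = w.length → x ≤ w.getD i 0 + w.getD j 0) : IsT (w ++ [x]) := by
  refine ⟨?_, ?_⟩
  · intro y hy
    rcases List.mem_append.1 hy with h1 | h1
    · exact h.let13 y h1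
    · rw [List.mem_singleton] at h1
      subst h1
      exact ⟨hx, hx3⟩
  · intro i j hij
    rw [List.length_append, List.length_singleton] at hij
    rw [getD_append_single, getD_append_single, getD_append_single]
    have hi : i < w.length := by omega
    have hj : j < w.length := by omega
    rw [if_pos hi, if_pos hj]
    by_cases h1 : i + j + 1 < w.length
    · rw [if_pos h1]
      exact h.k1 i j h1
    · have h2 : i + j + 1 = w.length := by omega
      rw [if_neg h1, if_pos h2]
      exact hok i j h2

theorem IsT.append_two {w : List ℕ} (h : IsT w) {x : ℕ} (hx : 1 ≤ x) (hx2 : x ≤ 2) :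
    IsT (w ++ [x]) := by
  refine h.append hx (by omega) ?_
  intro i j hij
  have h1 := h.getD_pos (i := i) (by omega)
  have h2 := h.getD_pos (i := j) (by omega)
  omega

theorem IsT.append_three {w : List ℕ} (h : IsT w)
    (hok : ∀ i j, i + j + 1 = w.length → ¬ (w.getD i 0 = 1 ∧ w.getD j 0 = 1)) :
    IsT (w ++ [3]) := by
  refine h.append (by norm_num) le_rfl ?_
  intro i j hij
  have h1 := h.getD_pos (i := i) (by omega)
  have h2 := h.getD_pos (i := j) (by omega)
  have h3 := hok i j hij
  omega

theorem tword_rec (g : ℕ) :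
    (tword (g + 1)).ncard + (tword g).ncard ≤ (tword (g + 2)).ncard := by
  have h1 : ((fun w : List ℕ => w ++ [1]) '' tword (g + 1)).ncard = (tword (g + 1)).ncard :=
    Set.ncard_image_of_injective _ (fun a b h => by simpa using h)
  have h2 : ((fun w : List ℕ => w ++ [2]) '' tword g).ncard = (tword g).ncard :=
    Set.ncard_image_of_injective _ (fun a b h => by simpa using h)
  rw [← h1, ← h2, ← Set.ncard_union_eq ?_ ((tword_finite _).image _) ((tword_finite _).image _)]
  · refine Set.ncard_le_ncard ?_ (tword_finite _)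
    rintro w (⟨u, ⟨hu, hs⟩, rfl⟩ | ⟨u, ⟨hu, hs⟩, rfl⟩)
    · exact ⟨hu.append_two le_rfl (by norm_num), by simp [hs]⟩
    · exact ⟨hu.append_two (by norm_num) le_rfl, by simp [hs]⟩
  · rw [Set.disjoint_left]
    rintro w ⟨u, _, rfl⟩ ⟨v, _, hv⟩
    have := congrArg List.getLast? hv
    simp at this

theorem tword_mono (g : ℕ) : (tword g).ncard ≤ (tword (g + 1)).ncard := by
  have h1 : ((fun w : List ℕ => w ++ [1]) '' tword g).ncard = (tword g).ncard :=
    Set.ncard_image_of_injective _ (fun a b h => by simpa using h)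
  rw [← h1]
  refine Set.ncard_le_ncard ?_ (tword_finite _)
  rintro w ⟨u, ⟨hu, hs⟩, rfl⟩
  exact ⟨hu.append_two le_rfl (by norm_num), by simp [hs]⟩

/-! ### enumeration -/

/-- number of extensions of sum `n` of a word; `p = 2 ^ length`, `m`, `r` masks of the
positions of the letters `1` and their reflections. -/
def tenum : ℕ → ℕ → ℕ → ℕ → ℕ → ℕ
  | 0, _, _, _, _ => 0
  | k + 1, n, p, m, r =>
    match n with
    | 0 => 1
    | 1 => 1
    | 2 => 2
    | n + 3 =>
      tenum k (n + 2) (Nat.add p p) (Nat.lor m p) (Nat.add (Nat.add r r) 1)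
      + tenum k (n + 1) (Nat.add p p) m (Nat.add r r)
      + bif Nat.beq (Nat.land m r) 0 then tenum k n (Nat.add p p) m (Nat.add r r) else 0

/-- extensions of sum `n` -/
def ext (w : List ℕ) (n : ℕ) : Set (List ℕ) := {v | IsT (w ++ v) ∧ v.sum = n}

theorem ext_finite (w : List ℕ) (n : ℕ) : (ext w n).Finite := by
  refine (posword_finite n).subset ?_
  rintro v ⟨h1, h2⟩
  exact ⟨fun x hx => (h1.let13 x (List.mem_append_right _ hx)).1, h2⟩

theorem cons_image_subset (w : List ℕ) (x n : ℕ) :
    (fun v : List ℕ => x :: v) '' ext (w ++ [x]) n ⊆ ext w (n + x) := by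
  rintro v ⟨u, ⟨h1, h2⟩, rfl⟩
  refine ⟨by simpa using h1, ?_⟩
  simp [h2, add_comm]

theorem cons_image_ncard (w : List ℕ) (x n : ℕ) :
    ((fun v : List ℕ => x :: v) '' ext (w ++ [x]) n).ncard = (ext (w ++ [x]) n).ncard :=
  Set.ncard_image_of_injective _ (fun a b h => by simpa using h)

theorem cons_image_disjoint {x y : ℕ} (hxy : x ≠ y) (S T : Set (List ℕ)) :
    Disjoint ((fun v : List ℕ => x :: v) '' S) ((fun v : List ℕ => y :: v) '' T) := by
  rw [Set.disjoint_left]
  rintro v ⟨u, _, rfl⟩ ⟨u', _, h⟩
  simp only [List.cons.injEq] at h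
  exact hxy h.1.symm

theorem ext_two (w : List ℕ) (n : ℕ) :
    (ext (w ++ [1]) (n + 1)).ncard + (ext (w ++ [2]) n).ncard ≤ (ext w (n + 2)).ncard := by
  rw [← cons_image_ncard, ← cons_image_ncard,
    ← Set.ncard_union_eq (cons_image_disjoint (by norm_num) _ _) ((ext_finite _ _).image _)
      ((ext_finite _ _).image _)]
  refine Set.ncard_le_ncard ?_ (ext_finite _ _)
  exact Set.union_subset (cons_image_subset w 1 (n + 1)) (cons_image_subset w 2 n)

theorem ext_three (w : List ℕ) (n : ℕ) :
    (ext (w ++ [1]) (n + 2)).ncard + (ext (w ++ [2]) (n + 1)).ncard + (ext (w ++ [3]) n).ncard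
      ≤ (ext w (n + 3)).ncard := by
  rw [← cons_image_ncard, ← cons_image_ncard, ← cons_image_ncard w 3,
    ← Set.ncard_union_eq (cons_image_disjoint (by norm_num) _ _) ((ext_finite _ _).image _)
      ((ext_finite _ _).image _),
    ← Set.ncard_union_eq ?_ (((ext_finite _ _).image _).union ((ext_finite _ _).image _))
      ((ext_finite _ _).image _)]
  · refine Set.ncard_le_ncard ?_ (ext_finite _ _)
    exact Set.union_subset (Set.union_subset (cons_image_subset w 1 (n + 2))
      (cons_image_subset w 2 (n + 1))) (cons_image_subset w 3 n)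
  · rw [Set.disjoint_union_left]
    exact ⟨cons_image_disjoint (by norm_num) _ _, cons_image_disjoint (by norm_num) _ _⟩

theorem ext_zero {w : List ℕ} (h : IsT w) : 1 ≤ (ext w 0).ncard := by
  have : ({[]} : Set (List ℕ)) ⊆ ext w 0 := by
    rintro v hv
    rw [Set.mem_singleton_iff] at hv
    subst hv
    exact ⟨by simpa using h, by simp⟩
  have h2 := Set.ncard_le_ncard this (ext_finite _ _)
  simpa using h2

theorem ext_one {w : List ℕ} (h : IsT w) : 1 ≤ (ext w 1).ncard := by
  have h1 := Set.ncard_le_ncard (cons_image_subset w 1 0) (ext_finite _ _)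
  rw [cons_image_ncard] at h1
  exact (ext_zero (h.append_two (x := 1) le_rfl (by norm_num))).trans h1

theorem ext_twoval {w : List ℕ} (h : IsT w) : 2 ≤ (ext w 2).ncard := by
  have h1 := ext_two w 0
  have h2 := ext_one (h.append_two (x := 1) le_rfl (by norm_num))
  have h3 := ext_zero (h.append_two (x := 2) (by norm_num) le_rfl)
  simp only [zero_add] at h1
  omega

/-- the state of the enumeration describes the word -/
structure Rep (w : List ℕ) (p m r : ℕ) : Prop where
  hp : p = 2 ^ w.length
  hm : ∀ i, w.getD i 0 = 1 → m.testBit i = true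
  hr : ∀ i j, i + j + 1 = w.length → w.getD j 0 = 1 → r.testBit i = true

theorem Rep.one {w : List ℕ} {p m r : ℕ} (h : Rep w p m r) :
    Rep (w ++ [1]) (p + p) (m ||| p) (r + r + 1) := by
  refine ⟨?_, ?_, ?_⟩
  · rw [h.hp, List.length_append, List.length_singleton, pow_succ]; ring
  · intro i hi
    rw [getD_append_single] at hi
    rw [Nat.testBit_lor]
    split_ifs at hi with h1 h2
    · rw [h.hm i hi]; rfl
    · rw [h.hp, h2, Nat.testBit_two_pow_self]; simp
  · intro i j hij hj
    rw [List.length_append, List.length_singleton] at hij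
    cases i with
    | zero => simp [Nat.testBit_zero]; omega
    | succ i =>
      rw [Nat.testBit_succ]
      have h1 : (r + r + 1) / 2 = r := by omega
      rw [h1]
      rw [getD_append_single, if_pos (by omega)] at hj
      exact h.hr i j (by omega) hj

theorem Rep.other {w : List ℕ} {p m r : ℕ} (h : Rep w p m r) {x : ℕ} (hx : x ≠ 1) :
    Rep (w ++ [x]) (p + p) m (r + r) := by
  refine ⟨?_, ?_, ?_⟩
  · rw [h.hp, List.length_append, List.length_singleton, pow_succ]; ring
  · intro i hi
    rw [getD_append_single] at hi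
    split_ifs at hi with h1 h2
    · exact h.hm i hi
    · exact absurd hi hx
  · intro i j hij hj
    rw [List.length_append, List.length_singleton] at hij
    rw [getD_append_single] at hj
    split_ifs at hj with h1 h2
    · cases i with
      | zero => omega
      | succ i =>
        rw [Nat.testBit_succ]
        have h1 : (r + r) / 2 = r := by omega
        rw [h1]
        exact h.hr i j (by omega) hj
    · exact absurd hj hx

theorem Rep.three {w : List ℕ} {p m r : ℕ} (h : Rep w p m r) (hT : IsT w)
    (h0 : Nat.land m r = 0) : IsT (w ++ [3]) := by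
  refine hT.append_three ?_
  rintro i j hij ⟨h1, h2⟩
  have h3 := h.hm i h1
  have h4 := h.hr i j hij h2
  have h5 : (m &&& r).testBit i = true := by
    rw [Nat.testBit_land, h3, h4]; rfl
  have h6 : m &&& r = 0 := h0
  rw [h6] at h5
  simp at h5

theorem tenum_le (k : ℕ) : ∀ (n p m r : ℕ) (w : List ℕ), Rep w p m r → IsT w →
    tenum k n p m r ≤ (ext w n).ncard := by
  induction k with
  | zero => intro n p m r w _ _; simp [tenum]
  | succ k ih =>
    intro n p m r w hR hT
    match n with
    | 0 => exact ext_zero hT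
    | 1 => exact ext_one hT
    | 2 => exact ext_twoval hT
    | n + 3 =>
      have e : tenum (k + 1) (n + 3) p m r =
        tenum k (n + 2) (p + p) (m ||| p) (r + r + 1)
        + tenum k (n + 1) (p + p) m (r + r)
        + bif Nat.beq (Nat.land m r) 0 then tenum k n (p + p) m (r + r) else 0 := rfl
      rw [e]
      have h1 := ih (n + 2) _ _ _ _ hR.one (hT.append_two le_rfl (by norm_num))
      have h2 := ih (n + 1) _ _ _ _ (hR.other (x := 2) (by norm_num))
        (hT.append_two (by norm_num) le_rfl)
      have h3 := ext_three w n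
      cases hb : Nat.beq (Nat.land m r) 0 with
      | false =>
        simp only [cond_false]
        omega
      | true =>
        simp only [cond_true]
        have h4 := ih n _ _ _ _ (hR.other (x := 3) (by norm_num))
          (hR.three hT (Nat.eq_of_beq_eq_true hb))
        omega

theorem tenum_le_tword (k n : ℕ) : tenum k n 1 0 0 ≤ (tword n).ncard := by
  have hT : IsT [] := ⟨by simp, by simp⟩
  have hR : Rep [] 1 0 0 := by
    refine ⟨by simp, by simp, ?_⟩
    intro i j hij
    simp at hij
  exact tenum_le k n 1 0 0 [] hR hT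

/-! ### the lower bound `tlo` -/

/-- table of the values for `g ≤ 24` -/
def tloTab : List ℕ :=
  [1, 1, 2, 4, 6, 11, 20, 33, 57, 99, 168, 287, 487, 824, 1395, 2351, 3954, 6636, 11116, 18593,
    31042, 51780, 86223, 143317, 237936]

/-- the pair `(tlo (23 + n), tlo (24 + n))` -/
def tloPair : ℕ → ℕ × ℕ
  | 0 => (143317, 237936)
  | n + 1 => ((tloPair n).2, (tloPair n).1 + (tloPair n).2)

/-- lower bound for `(tword g).ncard`: exact for `g ≤ 24`, then Fibonacci recursion -/
def tlo (g : ℕ) : ℕ := if g ≤ 24 then tloTab.getD g 0 else (tloPair (g - 24)).2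

theorem tlo_succ_succ (g : ℕ) (hg : 23 ≤ g) : tlo (g + 2) = tlo (g + 1) + tlo g := by
  obtain ⟨n, rfl⟩ := Nat.exists_eq_add_of_le hg
  rcases Nat.lt_or_ge n 1 with h | h
  · have : n = 0 := by omega
    subst this
    rfl
  · have h1 : tlo (23 + n + 2) = (tloPair (n + 1)).2 := by
      rw [tlo, if_neg (by omega)]
      congr 2
      omega
    have h2 : tlo (23 + n + 1) = (tloPair n).2 := by
      rcases Nat.lt_or_ge n 1 with h | h
      · omega
      · rw [tlo, if_neg (by omega)]
        congr 2
        omega
    have h3 : tlo (23 + n) = (tloPair n).1 := by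
      obtain ⟨m, rfl⟩ := Nat.exists_eq_add_of_le' h
      rcases Nat.lt_or_ge m 1 with h | h
      · have : m = 0 := by omega
        subst this
        rfl
      · rw [tlo, if_neg (by omega)]
        have : 23 + (m + 1) - 24 = m := by omega
        rw [this]
        rfl
    rw [h1, h2, h3]
    show (tloPair n).1 + (tloPair n).2 = _
    omega

theorem tlo_rec_le (g : ℕ) : tlo (g + 1) + tlo g ≤ tlo (g + 2) := by
  rcases Nat.lt_or_ge g 23 with h | h
  · interval_cases g <;> decide
  · rw [tlo_succ_succ g h]

theorem tbase : ∀ g : ℕ, g < 25 → tlo g ≤ tenum 25 g 1 0 0 := by decide +kernel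

theorem tlo_le (g : ℕ) : tlo g ≤ (tword g).ncard := by
  induction g using Nat.strong_induction_on with
  | _ g ih =>
    rcases Nat.lt_or_ge g 25 with h | h
    · exact (tbase g h).trans (tenum_le_tword 25 g)
    · obtain ⟨n, rfl⟩ := Nat.exists_eq_add_of_le' (show 2 ≤ g by omega)
      rw [tlo_succ_succ n (by omega)]
      have h1 := ih (n + 1) (by omega)
      have h2 := ih n (by omega)
      have h3 := tword_rec n
      omega

end Helper23.NS
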